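import Pool.Agent.H29.FL4.Stmts

/-!
# Row ALG of the board fl4 (MP_e1ba20): the units lie in the order
-/

set_option autoImplicit false

namespace Pool.FL4

open Pool.FLT

namespace ALGH

theorem id1 (β y : ℝ) (hy : y ^ 2 = β ^ 2 - 1) :
    (β + y) ^ 2 = (2 * β ^ 2 - 1) + 2 * β * y ∧
      ((β + y) ^ 2)⁻¹ = (2 * β ^ 2 - 1) - 2 * β * y := by
  refine ⟨by linear_combination hy, ?_⟩
  apply inv_eq_of_mul_eq_one_right
  have h1 : (β + y) * (β - y) = 1 := by linear_combination -hy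
  have h2 : (2 * β ^ 2 - 1) - 2 * β * y = (β - y) ^ 2 := by linear_combination -hy
  rw [h2, ← mul_pow, h1, one_pow]

theorem id2 (β y r u : ℝ) (hy : y ^ 2 = β ^ 2 - 1) (hr : r ^ 2 = 2) (hu : u * (β - r) = 1) :
    ((r * β - 1 + y) * u) ^ 4 = (2 * (β * (3 * β - 2 * r) * u ^ 2) ^ 2 - 1) +
        (4 * (r * β - 1) * u ^ 4 * (3 * β - 2 * r)) * β * y ∧
      (((r * β - 1 + y) * u) ^ 4)⁻¹ = (2 * (β * (3 * β - 2 * r) * u ^ 2) ^ 2 - 1) -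
        (4 * (r * β - 1) * u ^ 4 * (3 * β - 2 * r)) * β * y := by
  obtain ⟨X, hX⟩ : ∃ X : ℝ, X = β * (3 * β - 2 * r) * u ^ 2 := ⟨_, rfl⟩
  obtain ⟨Y, hY⟩ : ∃ Y : ℝ, Y = 2 * u ^ 2 * (r * β - 1) * y := ⟨_, rfl⟩
  have e1 : ((r * β - 1 + y) * u) ^ 2 = X + Y := by
    rw [hX, hY]
    linear_combination u ^ 2 * β ^ 2 * hr + u ^ 2 * hy
  have e2 : ((r * β - 1 - y) * u) ^ 2 = X - Y := by
    rw [hX, hY]
    linear_combination u ^ 2 * β ^ 2 * hr + u ^ 2 * hy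
  have e3 : ((r * β - 1 + y) * u) * ((r * β - 1 - y) * u) = 1 := by
    linear_combination u ^ 2 * (β ^ 2 - 1) * hr - u ^ 2 * hy + (u * (β - r) + 1) * hu
  have e4 : (X + Y) * (X - Y) = 1 := by
    rw [← e1, ← e2, ← mul_pow, e3, one_pow]
  have e5 : (4 * (r * β - 1) * u ^ 4 * (3 * β - 2 * r)) * β * y = 2 * X * Y := by
    rw [hX, hY]
    ring
  have e6 : ((r * β - 1 + y) * u) ^ 4 = (X + Y) ^ 2 := by
    rw [← e1]
    ring
  rw [e5, ← hX, e6]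
  refine ⟨by linear_combination -e4, ?_⟩
  apply inv_eq_of_mul_eq_one_right
  have e7 : 2 * X ^ 2 - 1 - 2 * X * Y = (X - Y) ^ 2 := by linear_combination e4
  rw [e7, ← mul_pow, e4, one_pow]

/-- the embedding of `ℤ[√2]` with `√2 ↦ x` -/
theorem emb (x : ℝ) (hx : x ^ 2 = 2) :
    ∃ φ : Zsqrtd 2 →+* ℝ, ∀ z : Zsqrtd 2, φ z = (z.re : ℝ) + (z.im : ℝ) * x := by
  have h : x * x = ((2 : ℤ) : ℝ) := by
    push_cast
    rw [← hx]
    ring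
  exact ⟨Zsqrtd.lift ⟨x, h⟩, fun z => Zsqrtd.lift_apply_apply ⟨x, h⟩ z⟩

end ALGH

open ALGH in
theorem alg (hS : SEQStmt) (hP : POSStmt) : ALGStmt := by
  intro i hi
  obtain ⟨hr, hy, -⟩ := hP i hi
  have hPQ : (P i : ℝ) ^ 2 - 2 * (Q i : ℝ) ^ 2 = 1 := by exact_mod_cast (hS i).1
  obtain ⟨B, hB⟩ : ∃ B : Zsqrtd 2, B = ⟨P i, Q i + 1⟩ := ⟨_, rfl⟩
  obtain ⟨U, hU⟩ : ∃ U : Zsqrtd 2, U = ⟨P i, -Q i⟩ := ⟨_, rfl⟩
  obtain ⟨R, hR⟩ : ∃ R : Zsqrtd 2, R = ⟨0, 1⟩ := ⟨_, rfl⟩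
  refine ⟨⟨(2 * B ^ 2 - 1).re, (2 * B ^ 2 - 1).im, 2, 0, fun j => ?_⟩,
    ⟨(2 * (B * (3 * B - 2 * R) * U ^ 2) ^ 2 - 1).re, (2 * (B * (3 * B - 2 * R) * U ^ 2) ^ 2 - 1).im,
      (4 * (R * B - 1) * U ^ 4 * (3 * B - 2 * R)).re, (4 * (R * B - 1) * U ^ 4 * (3 * B - 2 * R)).im,
      fun j => ?_⟩⟩
  · obtain ⟨φ, hφ⟩ := emb (r j) (hr j)
    have b1 : φ B = be i j := by
      rw [hφ, hB]
      unfold be
      push_cast
      ring
    have h := id1 (be i j) (yy i j) (hy j)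
    rw [← hφ, map_sub, map_mul, map_pow, b1, map_one, map_ofNat]
    push_cast
    rw [zero_mul, add_zero]
    exact h
  · obtain ⟨φ, hφ⟩ := emb (r j) (hr j)
    have b1 : φ B = be i j := by
      rw [hφ, hB]
      unfold be
      push_cast
      ring
    have b2 : φ U = (P i : ℝ) - Q i * r j := by
      rw [hφ, hU]
      push_cast
      ring
    have b3 : φ R = r j := by
      rw [hφ, hR]
      push_cast
      ring
    have h := id2 (be i j) (yy i j) (r j) ((P i : ℝ) - Q i * r j) (hy j) (hr j) (by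
      unfold be
      linear_combination hPQ - (Q i : ℝ) ^ 2 * hr j)
    rw [← hφ, ← hφ]
    simp only [map_sub, map_mul, map_pow, b1, b2, b3, map_one, map_ofNat]
    exact h

end Pool.FL4
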